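import Pool.Agent.H175R2.Cut
import Pool.Agent.R36.CwBase

/-!
# MP_0c56be_co, Q1: non-perfect (claw, 4K1, bridge)-free graphs have unbounded clique-width

The complement of every graph of girth at least five is (claw, 4K1, bridge)-free. The complement of
the disjoint union of the 5-cycle and the once-subdivided complete bipartite graph `K_{n,n}` is not
perfect, and its clique-width is unbounded.
-/

set_option autoImplicit false

namespace Pool.Agent.Results.MP_0c56be_co.UnboundedNonPerfect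

open Pool.Agent.H175R2

/-- `G` is `H`-free: no induced subgraph of `G` is isomorphic to `H`. -/
def Free {V W : Type} (H : SimpleGraph W) (G : SimpleGraph V) : Prop := ¬ Nonempty (H ↪g G)

/-- the claw: the vertex `0` is joined to `1`, `2`, `3` -/
def claw : SimpleGraph (Fin 4) := SimpleGraph.fromRel (fun x _ => x = 0)

/-- `4K₁`: four vertices and no edges -/
def fourK1 : SimpleGraph (Fin 4) := ⊥

/-- the bridge: the adjacent vertices `0` and `1` are joined to all other vertices; the remaining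
edges are `23` and `45` -/
def bridge : SimpleGraph (Fin 6) :=
  SimpleGraph.fromRel (fun x y => x = 0 ∨ x = 1 ∨ (x = 2 ∧ y = 3) ∨ (x = 4 ∧ y = 5))

/-- `G` is perfect: for every induced subgraph the chromatic number equals the clique number. -/
def IsPerfect {V : Type} (G : SimpleGraph V) : Prop :=
  ∀ A : Set V, (G.induce A).chromaticNumber = ((G.induce A).cliqueNum : ℕ∞)

/-- the vertices: rows, columns, cells, and a 5-cycle -/
abbrev VT (n : ℕ) : Type := (Fin n ⊕ Fin n ⊕ (Fin n × Fin n)) ⊕ Fin 5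

/-- every cell is joined to its row and to its column; the last five vertices form a cycle -/
def adj {n : ℕ} : VT n → VT n → Prop
  | .inl (.inl a), .inl (.inr (.inr p)) => a = p.1
  | .inl (.inr (.inr p)), .inl (.inl a) => a = p.1
  | .inl (.inr (.inl b)), .inl (.inr (.inr p)) => b = p.2
  | .inl (.inr (.inr p)), .inl (.inr (.inl b)) => b = p.2
  | .inr i, .inr j => j = i + 1 ∨ i = j + 1
  | _, _ => False

lemma adj_symm {n : ℕ} : ∀ x y : VT n, adj x y → adj y x := by
  rintro ((a | b | p) | i) ((a' | b' | p') | i') h <;> simp only [adj] at h ⊢ <;> tauto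

lemma adj_irrefl {n : ℕ} : ∀ x : VT n, ¬ adj x x := by
  rintro ((a | b | p) | i) h <;> simp only [adj] at h
  revert h
  revert i
  decide

/-- the graph `F` of girth at least five -/
def F (n : ℕ) : SimpleGraph (VT n) where
  Adj := adj
  symm := ⟨fun x y => adj_symm x y⟩
  loopless := ⟨adj_irrefl⟩

lemma tri5 : ∀ i j k : Fin 5, (j = i + 1 ∨ i = j + 1) → (k = j + 1 ∨ j = k + 1) →
    (k = i + 1 ∨ i = k + 1) → False := by decide

lemma sq5 : ∀ i i' j j' : Fin 5, i ≠ i' → j ≠ j' → (j = i + 1 ∨ i = j + 1) →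
    (j' = i + 1 ∨ i = j' + 1) → (j = i' + 1 ∨ i' = j + 1) → (j' = i' + 1 ∨ i' = j' + 1) → False := by
  decide

/-- `F` has no triangle -/
lemma no_tri {n : ℕ} : ∀ x y z : VT n, adj x y → adj y z → adj x z → False := by
  rintro ((a | b | p) | i) ((a' | b' | p') | i') ((a2 | b2 | p2) | i2) h1 h2 h3 <;>
    simp only [adj] at h1 h2 h3
  exact tri5 i i' i2 h1 h2 h3

/-- `F` has no 4-cycle -/
lemma no_sq {n : ℕ} : ∀ x x' y y' : VT n, x ≠ x' → y ≠ y' → adj x y → adj x y' → adj x' y →
    adj x' y' → False := by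
  have key : ∀ x x' : VT n, x ≠ x' → ∀ y y' : VT n, y ≠ y' → adj x y → adj x y' → adj x' y →
      adj x' y' → False := by
    rintro ((a | b | p) | i) ((a' | b' | p') | i') hx ((a2 | b2 | p2) | i2) ((a3 | b3 | p3) | i3) hy
      h1 h2 h3 h4 <;> simp only [adj] at h1 h2 h3 h4 <;>
      first
      | exact sq5 i i' i2 i3 (fun h => hx (by rw [h])) (fun h => hy (by rw [h])) h1 h2 h3 h4
      | (apply hx
         simp only [Sum.inl.injEq, Sum.inr.injEq, Prod.ext_iff] at *
         first
         | exact h1.trans h3.symm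
         | exact ⟨h1.symm.trans h3, h2.symm.trans h4⟩
         | exact ⟨h2.symm.trans h4, h1.symm.trans h3⟩)
      | (apply hy
         simp only [Sum.inl.injEq, Sum.inr.injEq, Prod.ext_iff] at *
         first
         | exact h1.trans h2.symm
         | exact ⟨h1.symm.trans h2, h3.symm.trans h4⟩
         | exact ⟨h3.symm.trans h4, h1.symm.trans h2⟩)
  intro x x' y y' hx hy
  exact key x x' hx y y' hy

/-- the graph: the complement of `F` -/
def G (n : ℕ) : SimpleGraph (VT n) := (F n)ᶜ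

lemma G_adj {n : ℕ} (x y : VT n) : (G n).Adj x y ↔ x ≠ y ∧ ¬ adj x y := Iff.rfl

lemma adj_of_not {n : ℕ} {x y : VT n} (hxy : x ≠ y) (h : ¬ (G n).Adj x y) : adj x y := by
  by_contra hcon
  exact h ⟨hxy, hcon⟩

theorem free_claw (n : ℕ) : Free claw (G n) := by
  rintro ⟨e⟩
  have h : ∀ i j : Fin 4, i ≠ j → ¬ claw.Adj i j → adj (e i) (e j) := by
    intro i j hij hn
    exact adj_of_not (fun h => hij (e.injective h)) (fun h => hn (e.map_adj_iff.1 h))
  have d : ∀ i j : Fin 4, i ≠ 0 → j ≠ 0 → ¬ claw.Adj i j := by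
    intro i j hi hj h
    simp only [claw, SimpleGraph.fromRel_adj] at h
    rcases h.2 with h | h
    · exact hi h
    · exact hj h
  exact no_tri _ _ _ (h 1 2 (by decide) (d 1 2 (by decide) (by decide)))
    (h 2 3 (by decide) (d 2 3 (by decide) (by decide)))
    (h 1 3 (by decide) (d 1 3 (by decide) (by decide)))

theorem free_fourK1 (n : ℕ) : Free fourK1 (G n) := by
  rintro ⟨e⟩
  have h : ∀ i j : Fin 4, i ≠ j → adj (e i) (e j) := by
    intro i j hij
    exact adj_of_not (fun h => hij (e.injective h)) (fun h => by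
      have := e.map_adj_iff.1 h
      exact this)
  exact no_tri _ _ _ (h 1 2 (by decide)) (h 2 3 (by decide)) (h 1 3 (by decide))

theorem free_bridge (n : ℕ) : Free bridge (G n) := by
  rintro ⟨e⟩
  have h : ∀ i j : Fin 6, i ≠ j → ¬ bridge.Adj i j → adj (e i) (e j) := by
    intro i j hij hn
    exact adj_of_not (fun h => hij (e.injective h)) (fun h => hn (e.map_adj_iff.1 h))
  have d : ∀ i j : Fin 6, (i = 2 ∨ i = 3) → (j = 4 ∨ j = 5) → ¬ bridge.Adj i j := by
    intro i j hi hj h
    simp only [bridge, SimpleGraph.fromRel_adj] at h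
    rcases hi with rfl | rfl <;> rcases hj with rfl | rfl <;> revert h <;> decide
  exact no_sq (e 2) (e 3) (e 4) (e 5) (fun h => absurd (e.injective h) (by decide))
    (fun h => absurd (e.injective h) (by decide))
    (h 2 4 (by decide) (d 2 4 (by decide) (by decide)))
    (h 2 5 (by decide) (d 2 5 (by decide) (by decide)))
    (h 3 4 (by decide) (d 3 4 (by decide) (by decide)))
    (h 3 5 (by decide) (d 3 5 (by decide) (by decide)))

/-- the last five vertices induce a 5-cycle -/
theorem not_perfect (n : ℕ) : ¬ IsPerfect (G n) := by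
  classical
  intro hp
  have hA := hp {x | ∃ i : Fin 5, x = .inr i}
  obtain ⟨s, hs⟩ := ((G n).induce {x | ∃ i : Fin 5, x = .inr i}).exists_isNClique_cliqueNum
  have h2 : ((G n).induce {x : VT n | ∃ i : Fin 5, x = .inr i}).cliqueNum ≤ 2 := by
    rw [← hs.card_eq]
    by_contra hcon
    push Not at hcon
    obtain ⟨x, hx, y, hy, z, hz, hxy, hxz, hyz⟩ := Finset.two_lt_card.1 hcon
    have h1 := hs.isClique hx hy hxy
    have h2 := hs.isClique hx hz hxz
    have h3 := hs.isClique hy hz hyz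
    obtain ⟨x, i, rfl⟩ := x
    obtain ⟨y, j, rfl⟩ := y
    obtain ⟨z, k, rfl⟩ := z
    have h1' : (Sum.inr i : VT n) ≠ Sum.inr j ∧ ¬ (j = i + 1 ∨ i = j + 1) := h1
    have h2' : (Sum.inr i : VT n) ≠ Sum.inr k ∧ ¬ (k = i + 1 ∨ i = k + 1) := h2
    have h3' : (Sum.inr j : VT n) ≠ Sum.inr k ∧ ¬ (k = j + 1 ∨ j = k + 1) := h3
    have key : ∀ i j k : Fin 5, i ≠ j → i ≠ k → j ≠ k → ¬ (j = i + 1 ∨ i = j + 1) →
        ¬ (k = i + 1 ∨ i = k + 1) → ¬ (k = j + 1 ∨ j = k + 1) → False := by decide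
    exact key i j k (fun h => h1'.1 (by rw [h])) (fun h => h2'.1 (by rw [h]))
      (fun h => h3'.1 (by rw [h])) h1'.2 h2'.2 h3'.2
  have hcol : ((G n).induce {x : VT n | ∃ i : Fin 5, x = .inr i}).Colorable 2 := by
    rw [← SimpleGraph.chromaticNumber_le_iff_colorable, hA]
    exact_mod_cast h2
  obtain ⟨c⟩ := hcol
  have hf : ∀ i : Fin 5, c ⟨.inr i, i, rfl⟩ ≠ c ⟨.inr (i + 2), i + 2, rfl⟩ := by
    intro i
    apply c.valid
    have h : (G n).Adj (.inr i) (.inr (i + 2)) := by
      rw [G_adj]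
      refine ⟨?_, ?_⟩
      · simp only [ne_eq, Sum.inr.injEq]
        revert i
        decide
      · simp only [adj]
        revert i
        decide
    exact h
  have h5 : ∀ a b c d e : Fin 2, a ≠ c → b ≠ d → c ≠ e → d ≠ a → e ≠ b → False := by decide
  exact h5 _ _ _ _ _ (hf 0) (hf 1) (hf 2) (hf 3) (hf 4)

/-- few bad lines -/
lemma bad_lines {n k : ℕ} {A : Set (VT n)} (l : VT n → Fin k)
    (hl : ∀ x ∈ A, ∀ y ∈ A, l x = l y → ∀ z ∉ A, (adj x z ↔ adj y z))
    (Ln : Fin n → VT n) (Pt : Fin n → Fin n → VT n)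
    (hadj : ∀ a a' b, adj (Ln a) (Pt a' b) ↔ a = a') (B : Finset (Fin n))
    (hB : ∀ a ∈ B, (Ln a ∈ A ∧ ∃ b, Pt a b ∉ A) ∨ (Ln a ∉ A ∧ ∃ b, Pt a b ∈ A)) :
    B.card ≤ 2 * k := by
  classical
  have h1 : (B.filter (fun a => Ln a ∈ A)).card ≤ k := by
    have : (B.filter (fun a => Ln a ∈ A)).card ≤ (Finset.univ : Finset (Fin k)).card := by
      apply Finset.card_le_card_of_injOn (fun a => l (Ln a)) (fun _ _ => Finset.mem_univ _)
      intro a ha a' ha' haa
      rw [Finset.mem_coe, Finset.mem_filter] at ha ha'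
      obtain ⟨_, b, hb⟩ := (hB a ha.1).resolve_right (fun h => h.1 ha.2)
      exact ((hadj a' a b).1 ((hl _ ha.2 _ ha'.2 haa _ hb).1 ((hadj a a b).2 rfl))).symm
    simpa using this
  have h2 : (B.filter (fun a => Ln a ∉ A)).card ≤ k := by
    have hex : ∀ a, ∃ b, a ∈ B → Ln a ∉ A → Pt a b ∈ A := by
      intro a
      by_cases h : a ∈ B ∧ Ln a ∉ A
      · obtain ⟨_, b, hb⟩ := (hB a h.1).resolve_left (fun h' => h.2 h'.1)
        exact ⟨b, fun _ _ => hb⟩
      · exact ⟨a, fun h1 h2 => absurd ⟨h1, h2⟩ h⟩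
    choose b hb using hex
    have : (B.filter (fun a => Ln a ∉ A)).card ≤ (Finset.univ : Finset (Fin k)).card := by
      apply Finset.card_le_card_of_injOn (fun a => l (Pt a (b a))) (fun _ _ => Finset.mem_univ _)
      intro a ha a' ha' haa
      rw [Finset.mem_coe, Finset.mem_filter] at ha ha'
      have h3 := (hl _ (hb a ha.1 ha.2) _ (hb a' ha'.1 ha'.2) haa _ ha.2).1
        (adj_symm _ _ ((hadj a a (b a)).2 rfl))
      exact (hadj a a' (b a')).1 (adj_symm _ _ h3)
    simpa using this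
  have h3 := Finset.card_filter_add_card_filter_not (s := B) (fun a => Ln a ∈ A)
  omega

theorem unbounded {n k : ℕ} (hn : 6 * k < n) (hn2 : 2 ≤ n) : ¬ CwLE (G n) k := by
  classical
  intro hcw
  let P : Fin n × Fin n → VT n := fun p => .inl (.inr (.inr p))
  have hP : Function.Injective P := by
    intro p q h
    simpa [P] using h
  have hW : (Set.range P).ncard = n * n := by
    rw [← Set.image_univ, Set.ncard_image_of_injective _ hP, Set.ncard_univ]; simp
  obtain ⟨A, ⟨l, hl⟩, h1, h2⟩ := balanced_cut (G n) k hcw (Set.range P) (by rw [hW]; nlinarith)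
  rw [hW] at h1 h2
  have hl' : ∀ x ∈ A, ∀ y ∈ A, l x = l y → ∀ z ∉ A, (adj x z ↔ adj y z) := by
    intro x hx y hy hxy z hz
    have := hl x hx y hy hxy z hz
    rw [G_adj, G_adj] at this
    have hxz : x ≠ z := fun h => hz (h ▸ hx)
    have hyz : y ≠ z := fun h => hz (h ▸ hy)
    simp only [hxz, hyz, ne_eq, not_false_eq_true, true_and] at this
    exact not_iff_not.1 this
  obtain ⟨S, hS⟩ : ∃ S : Finset (Fin n × Fin n), ∀ p, p ∈ S ↔ P p ∈ A :=
    ⟨Finset.univ.filter (fun p => P p ∈ A), by simp⟩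
  have hc : (A ∩ Set.range P).ncard = S.card := by
    have : A ∩ Set.range P = P '' (S : Set (Fin n × Fin n)) := by
      ext x
      simp only [Set.mem_inter_iff, Set.mem_range, Set.mem_image, Finset.mem_coe, hS]
      constructor
      · rintro ⟨hx, p, rfl⟩
        exact ⟨p, hx, rfl⟩
      · rintro ⟨p, hp, rfl⟩
        exact ⟨hp, p, rfl⟩
    rw [this, Set.ncard_image_of_injective _ hP, Set.ncard_coe_finset]
  rw [hc] at h1 h2
  have hcc : S.card + Sᶜ.card = n * n := by
    rw [Finset.card_add_card_compl]; simp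
  let R : Fin n → VT n := fun a => .inl (.inl a)
  let C : Fin n → VT n := fun b => .inl (.inr (.inl b))
  obtain ⟨BR, hBR⟩ : ∃ B : Finset (Fin n), ∀ a, a ∈ B ↔
      ((R a ∈ A ∧ ∃ b, P (a, b) ∉ A) ∨ (R a ∉ A ∧ ∃ b, P (a, b) ∈ A)) :=
    ⟨Finset.univ.filter (fun a => (R a ∈ A ∧ ∃ b, P (a, b) ∉ A) ∨ (R a ∉ A ∧ ∃ b, P (a, b) ∈ A)),
      by simp⟩
  obtain ⟨BC, hBC⟩ : ∃ B : Finset (Fin n), ∀ b, b ∈ B ↔
      ((C b ∈ A ∧ ∃ a, P (a, b) ∉ A) ∨ (C b ∉ A ∧ ∃ a, P (a, b) ∈ A)) :=
    ⟨Finset.univ.filter (fun b => (C b ∈ A ∧ ∃ a, P (a, b) ∉ A) ∨ (C b ∉ A ∧ ∃ a, P (a, b) ∈ A)),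
      by simp⟩
  have cR : BR.card ≤ 2 * k := bad_lines l hl' R (fun a b => P (a, b)) (fun _ _ _ => Iff.rfl) BR
    (fun a ha => (hBR a).1 ha)
  have cC : BC.card ≤ 2 * k := bad_lines l hl' C (fun b a => P (a, b)) (fun _ _ _ => Iff.rfl) BC
    (fun a ha => (hBC a).1 ha)
  by_cases hcase : ∃ a, a ∉ BR ∧ R a ∈ A
  · -- all cells in good columns are in `S`
    obtain ⟨a, haB, haA⟩ := hcase
    rw [hBR] at haB
    push Not at haB
    have hrow : ∀ b, P (a, b) ∈ A := haB.1 haA
    have hcol : ∀ b, b ∉ BC → ∀ a, P (a, b) ∈ A := by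
      intro b hb a'
      rw [hBC] at hb
      push Not at hb
      by_cases hCb : C b ∈ A
      · exact hb.1 hCb a'
      · exact absurd (hrow b) (hb.2 hCb a)
    have h3 : Sᶜ ⊆ (Finset.univ : Finset (Fin n)) ×ˢ BC := by
      rintro ⟨a', b⟩ h
      rw [Finset.mem_compl, hS] at h
      rw [Finset.mem_product]
      refine ⟨Finset.mem_univ _, ?_⟩
      by_contra hb
      exact h (hcol b hb a')
    have h4 := Finset.card_le_card h3
    rw [Finset.card_product, Finset.card_univ, Fintype.card_fin] at h4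
    have h5 : n * BC.card ≤ n * (2 * k) := Nat.mul_le_mul_left _ cC
    have h6 : n * n ≤ 3 * (n * (2 * k)) := by omega
    have h7 : n * n ≤ n * (6 * k) := by linarith
    have := Nat.le_of_mul_le_mul_left h7 (by omega)
    omega
  · push Not at hcase
    have h3 : S ⊆ BR ×ˢ (Finset.univ : Finset (Fin n)) := by
      rintro ⟨a, b⟩ h
      rw [hS] at h
      rw [Finset.mem_product]
      refine ⟨?_, Finset.mem_univ _⟩
      by_contra ha
      have h4 := hcase a ha
      rw [hBR] at ha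
      push Not at ha
      exact ha.2 h4 b h
    have h4 := Finset.card_le_card h3
    rw [Finset.card_product, Finset.card_univ, Fintype.card_fin] at h4
    have h5 : BR.card * n ≤ 2 * k * n := Nat.mul_le_mul_right _ cR
    have h7 : n * n ≤ 6 * k * n := by nlinarith
    have := Nat.le_of_mul_le_mul_right h7 (by omega)
    omega

/-- For every `c` there is a finite (claw, 4K₁, bridge)-free graph which is not perfect and has
clique-width greater than `c`. -/
theorem result : ∀ c : ℕ, ∃ (V : Type) (_ : Finite V) (G : SimpleGraph V),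
    Free claw G ∧ Free fourK1 G ∧ Free bridge G ∧ ¬ IsPerfect G ∧ c < cliqueWidth G := by
  intro c
  obtain ⟨n, hn⟩ : ∃ n, n = 6 * c + 2 := ⟨_, rfl⟩
  refine ⟨VT n, inferInstance, G n, free_claw n, free_fourK1 n, free_bridge n, not_perfect n, ?_⟩
  by_contra hcon
  have : Nonempty (VT n) := ⟨.inr 0⟩
  exact unbounded (n := n) (k := cliqueWidth (G n)) (by omega) (by omega)
    (Pool.Agent.R36.cwLE_cliqueWidth (G n))

end Pool.Agent.Results.MP_0c56be_co.UnboundedNonPerfect
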